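import Mathlib
import Pool.Agent.H964.QC.Stm

/-! Task QC-MEAS (project of helper964): positivity, measurability, fourth moments of the fields. -/

set_option autoImplicit false

open MeasureTheory ProbabilityTheory Filter Finset

namespace Pool.Agent.H199.QC

open Pool.Agent.H964.QC

variable {V : Type} [Fintype V] [DecidableEq V] {C0 : ℝ} {N0 : ℕ}

theorem memLp4_iff {Ω : Type} [MeasurableSpace Ω] {P : Measure Ω} {f : Ω → ℝ}
    (hf : AEStronglyMeasurable f P) : MemLp f 4 P ↔ Integrable (fun ω => f ω ^ 4) P := by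
  rw [← integrable_norm_rpow_iff hf (by norm_num) (by norm_num)]
  have h : (fun ω => ‖f ω‖ ^ (4 : ENNReal).toReal) = fun ω => f ω ^ 4 := by
    funext ω
    have h4 : (4 : ENNReal).toReal = ((4 : ℕ) : ℝ) := by norm_num
    rw [h4, Real.rpow_natCast, Real.norm_eq_abs]
    exact Even.pow_abs (by decide) _
  rw [h]

/-- the product of independent functions in `L4` is in `L4` -/
theorem memLp4_mul {Ω : Type} [MeasurableSpace Ω] {P : Measure Ω} {f g : Ω → ℝ}
    (hf : MemLp f 4 P) (hg : MemLp g 4 P) (hi : IndepFun f g P) :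
    MemLp (fun ω => f ω * g ω) 4 P := by
  have hm : AEStronglyMeasurable (fun ω => f ω * g ω) P := hf.1.mul hg.1
  rw [memLp4_iff hm]
  have h1 := (memLp4_iff hf.1).1 hf
  have h2 := (memLp4_iff hg.1).1 hg
  have h3 : IndepFun (fun ω => f ω ^ 4) (fun ω => g ω ^ 4) P :=
    hi.comp (φ := fun t : ℝ => t ^ 4) (ψ := fun t : ℝ => t ^ 4)
      (measurable_id.pow_const 4) (measurable_id.pow_const 4)
  have h4 := h3.integrable_mul h1 h2
  refine h4.congr (Filter.Eventually.of_forall fun ω => ?_)
  show f ω ^ 4 * g ω ^ 4 = (f ω * g ω) ^ 4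
  ring

theorem Zr_pos (W : Wlk V C0 N0) {x : ℕ → V → ℝ} (hx : ∀ n v, -1 < x n v) :
    ∀ (j : ℕ) (y : V), 0 < Zr W x j y := by
  intro j
  induction j with
  | zero => intro y; exact one_pos
  | succ j ih =>
    intro y
    show 0 < ∑ z, W.K 1 y z * ((1 + x (j + 1) z) * Zr W x j z)
    have h0 : ∀ z, 0 < (1 + x (j + 1) z) * Zr W x j z := fun z =>
      mul_pos (by have := hx (j + 1) z; linarith) (ih z)
    obtain ⟨z, hz⟩ : ∃ z, W.K 1 y z ≠ 0 := by
      by_contra hcon
      push Not at hcon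
      have h1 := W.K_sum 1 y
      rw [Finset.sum_eq_zero (fun z _ => hcon z)] at h1
      exact zero_ne_one h1
    refine Finset.sum_pos' (fun z _ => mul_nonneg (W.K_nonneg _ _ _) (h0 z).le)
      ⟨z, Finset.mem_univ z, mul_pos ?_ (h0 z)⟩
    exact lt_of_le_of_ne (W.K_nonneg _ _ _) (Ne.symm hz)

theorem Zr_cut (W : Wlk V C0 N0) (x : ℕ → V → ℝ) (j : ℕ) :
    ∀ i ≤ j, Zr W x i = Zr W (cut j x) i := by
  intro i
  induction i with
  | zero => intro _; rfl
  | succ i ih =>
    intro hi
    funext y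
    show ∑ z, W.K 1 y z * ((1 + x (i + 1) z) * Zr W x i z) =
      ∑ z, W.K 1 y z * ((1 + cut j x (i + 1) z) * Zr W (cut j x) i z)
    refine Finset.sum_congr rfl fun z _ => ?_
    have h1 : cut j x (i + 1) z = x (i + 1) z := if_pos hi
    rw [h1, ih (by omega)]

theorem meas_coord (n : ℕ) (v : V) : Measurable (fun x : ℕ → V → ℝ => x n v) :=
  (measurable_pi_apply v).comp (measurable_pi_apply n)

theorem Zr_meas (W : Wlk V C0 N0) :
    ∀ (j : ℕ) (y : V), Measurable (fun x : ℕ → V → ℝ => Zr W x j y) := by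
  intro j
  induction j with
  | zero => intro y; exact measurable_const
  | succ j ih =>
    intro y
    show Measurable (fun x : ℕ → V → ℝ => ∑ z, W.K 1 y z * ((1 + x (j + 1) z) * Zr W x j z))
    refine Finset.measurable_sum _ fun z _ => ?_
    exact ((((meas_coord (j + 1) z).const_add 1)).mul (ih z)).const_mul _

theorem fwd_meas (W : Wlk V C0 N0) : ∀ (T : ℕ) (w : (ℕ → V → ℝ) → V → ℝ),
    (∀ y, Measurable (fun x => w x y)) → ∀ z,
    Measurable (fun x : ℕ → V → ℝ => fwd W x T (w x) z) := by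
  intro T
  induction T with
  | zero => intro w hw z; exact hw z
  | succ T ih =>
    intro w hw z
    show Measurable (fun x : ℕ → V → ℝ =>
      fwd W x T (fun y => (1 + x (T + 1) y) * wt W (w x) 1 y) z)
    refine ih (fun x y => (1 + x (T + 1) y) * wt W (w x) 1 y) (fun y => ?_) z
    refine ((meas_coord (T + 1) y).const_add 1).mul ?_
    show Measurable (fun x : ℕ → V → ℝ => ∑ u, w x u * W.K 1 u y)
    exact Finset.measurable_sum _ fun u _ => (hw u).mul_const _

theorem fwd_cut (W : Wlk V C0 N0) (x : ℕ → V → ℝ) (j : ℕ) :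
    ∀ i ≤ j, ∀ w : V → ℝ, fwd W x i w = fwd W (cut j x) i w := by
  intro i
  induction i with
  | zero => intro _ w; rfl
  | succ i ih =>
    intro hi w
    show fwd W x i (fun z => (1 + x (i + 1) z) * wt W w 1 z) =
      fwd W (cut j x) i (fun z => (1 + cut j x (i + 1) z) * wt W w 1 z)
    rw [ih (by omega)]
    congr 1
    funext z
    have h1 : cut j x (i + 1) z = x (i + 1) z := if_pos hi
    rw [h1]

/-- the unit mass at `y` -/
def dl (y : V) : V → ℝ := fun z => if z = y then 1 else 0

theorem sum_dl (f : V → ℝ) (z : V) : ∑ y, f y * dl y z = f z := by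
  unfold dl
  simp

theorem fwd_lin (W : Wlk V C0 N0) (x : ℕ → V → ℝ) :
    ∀ (T : ℕ) {ι : Type} (s : Finset ι) (a : ι → ℝ) (f : ι → V → ℝ) (z : V),
      fwd W x T (fun v => ∑ i ∈ s, a i * f i v) z = ∑ i ∈ s, a i * fwd W x T (f i) z := by
  intro T
  induction T with
  | zero => intro ι s a f z; rfl
  | succ T ih =>
    intro ι s a f z
    show fwd W x T (fun v => (1 + x (T + 1) v) * wt W (fun v => ∑ i ∈ s, a i * f i v) 1 v) z =
      ∑ i ∈ s, a i * fwd W x T (fun v => (1 + x (T + 1) v) * wt W (f i) 1 v) z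
    rw [← ih s a (fun i v => (1 + x (T + 1) v) * wt W (f i) 1 v) z]
    congr 1
    funext v
    unfold wt
    rw [Finset.mul_sum]
    simp_rw [Finset.sum_mul, Finset.mul_sum]
    rw [Finset.sum_comm]
    refine Finset.sum_congr rfl fun i _ => Finset.sum_congr rfl fun u _ => ?_
    ring

theorem fwd_step (W : Wlk V C0 N0) (x : ℕ → V → ℝ) (T : ℕ) (w : V → ℝ) (z : V) :
    fwd W x (T + 1) w z =
      ∑ y, wt W w 1 y * ((1 + x (T + 1) y) * fwd W (cut T x) T (dl y) z) := by
  have h1 : (fun v => (1 + x (T + 1) v) * wt W w 1 v) =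
      fun v => ∑ y, ((1 + x (T + 1) y) * wt W w 1 y) * dl y v := by
    funext v
    exact (sum_dl (fun y => (1 + x (T + 1) y) * wt W w 1 y) v).symm
  show fwd W x T (fun v => (1 + x (T + 1) v) * wt W w 1 v) z = _
  rw [h1, fwd_lin]
  refine Finset.sum_congr rfl fun y _ => ?_
  rw [← fwd_cut W x T T le_rfl]
  ring

theorem wt_zero (W : Wlk V C0 N0) (w : V → ℝ) (z : V) : wt W w 0 z = w z := by
  unfold wt
  simp_rw [W.K_zero]
  simp

theorem wt_succ (W : Wlk V C0 N0) (w : V → ℝ) (T : ℕ) (z : V) :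
    ∑ y, wt W w 1 y * wt W (dl y) T z = wt W w (T + 1) z := by
  have h1 : ∀ y, wt W (dl y) T z = W.K T y z := by
    intro y
    unfold wt dl
    simp
  simp_rw [h1]
  unfold wt
  simp_rw [Finset.sum_mul]
  rw [Finset.sum_comm]
  refine Finset.sum_congr rfl fun u _ => ?_
  rw [add_comm T 1, W.K_add 1 T u z, Finset.mul_sum]
  exact Finset.sum_congr rfl fun y _ => by ring

theorem t_MEAS : S_IND → S_MEAS := by
  intro hIND V _ _ C0 N0 W Ω _ P _ s2 κ η hη
  have hind := hIND V Ω P s2 κ η hη
  have hL : ∀ n v, MemLp (η n v) 4 P := fun n v =>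
    (memLp4_iff (hη.meas n v).aestronglyMeasurable).2 (hη.int4 n v)
  have hcfg : Measurable (cfg η) := by
    refine measurable_pi_iff.2 fun n => measurable_pi_iff.2 fun v => ?_
    exact hη.meas n v
  have hcut : ∀ j : ℕ, Measurable (fun ω => cut j (cfg η ω)) := by
    intro j
    refine measurable_pi_iff.2 fun n => measurable_pi_iff.2 fun v => ?_
    show Measurable (fun ω => if n ≤ j then η n v ω else 0)
    split_ifs
    · exact hη.meas n v
    · exact measurable_const
  have hL1 : ∀ n v, MemLp (fun ω => 1 + η n v ω) 4 P := fun n v =>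
    (memLp_const (1 : ℝ)).add (hL n v)
  have hint1 : ∀ n v, Integrable (fun ω => η n v ω) P := fun n v =>
    (hL n v).integrable (by norm_num)
  have hE1 : ∀ n v, ∫ ω, (1 + η n v ω) ∂P = 1 := by
    intro n v
    rw [integral_add (integrable_const _) (hint1 n v), hη.m1]
    simp
  -- independence of one factor and a function of the lower layers
  have hI : ∀ (j : ℕ) (v : V) (F : (ℕ → V → ℝ) → ℝ), Measurable F →
      IndepFun (fun ω => 1 + η (j + 1) v ω) (fun ω => F (cut j (cfg η ω))) P := by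
    intro j v F hF
    have h1 := ((hind j).2.1).comp hF
      (((measurable_pi_apply v).const_add 1 : Measurable (fun u : V → ℝ => 1 + u v)))
    exact h1.symm
  -- the product
  have hprod : ∀ (j : ℕ) (v : V) (F : (ℕ → V → ℝ) → ℝ), Measurable F →
      MemLp (fun ω => F (cut j (cfg η ω))) 4 P →
      MemLp (fun ω => (1 + η (j + 1) v ω) * F (cut j (cfg η ω))) 4 P ∧
      ∫ ω, (1 + η (j + 1) v ω) * F (cut j (cfg η ω)) ∂P = ∫ ω, F (cut j (cfg η ω)) ∂P := by
    intro j v F hF hM
    refine ⟨memLp4_mul (hL1 _ _) hM (hI j v F hF), ?_⟩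
    have h1 := (hI j v F hF).integral_fun_mul_eq_mul_integral (hL1 (j + 1) v).1 hM.1
    rw [h1, hE1, one_mul]
  have hZ : ∀ j y, MemLp (fun ω => Zr W (cfg η ω) j y) 4 P ∧ ∫ ω, Zr W (cfg η ω) j y ∂P = 1 := by
    intro j
    induction j with
    | zero =>
      intro y
      refine ⟨memLp_const (1 : ℝ), ?_⟩
      show ∫ _ω, (1 : ℝ) ∂P = 1
      simp
    | succ j ih =>
      intro y
      have hc : ∀ z, (fun ω => Zr W (cut j (cfg η ω)) j z) = fun ω => Zr W (cfg η ω) j z := by
        intro z
        funext ω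
        rw [← Zr_cut W (cfg η ω) j j le_rfl]
      have h1 : ∀ z, MemLp (fun ω => (1 + η (j + 1) z ω) * Zr W (cfg η ω) j z) 4 P ∧
          ∫ ω, (1 + η (j + 1) z ω) * Zr W (cfg η ω) j z ∂P = 1 := by
        intro z
        have h2 := hprod j z (fun x => Zr W x j z) (Zr_meas W j z) (by
          show MemLp (fun ω => Zr W (cut j (cfg η ω)) j z) 4 P
          rw [hc z]; exact (ih z).1)
        have h3 : (fun ω => (1 + η (j + 1) z ω) * (fun x => Zr W x j z) (cut j (cfg η ω))) =
            fun ω => (1 + η (j + 1) z ω) * Zr W (cfg η ω) j z := by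
          funext ω
          rw [← congrFun (hc z) ω]
        rw [h3] at h2
        refine ⟨h2.1, ?_⟩
        have h4 := h2.2
        have h5 : ∫ ω, (fun x => Zr W x j z) (cut j (cfg η ω)) ∂P = 1 := by
          show ∫ ω, Zr W (cut j (cfg η ω)) j z ∂P = 1
          rw [hc z]; exact (ih z).2
        rw [h5] at h4
        exact h4
      have h6 : (fun ω => Zr W (cfg η ω) (j + 1) y) =
          fun ω => ∑ z, W.K 1 y z * ((1 + η (j + 1) z ω) * Zr W (cfg η ω) j z) := rfl
      rw [h6]
      refine ⟨memLp_finsetSum _ fun z _ => (h1 z).1.const_mul _, ?_⟩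
      rw [integral_finsetSum _ fun z _ => ((h1 z).1.const_mul _).integrable (by norm_num)]
      simp_rw [integral_const_mul, (h1 _).2, mul_one]
      exact W.K_sum 1 y
  have hFw : ∀ T (w : V → ℝ) z, MemLp (fun ω => fwd W (cfg η ω) T w z) 4 P ∧
      ∫ ω, fwd W (cfg η ω) T w z ∂P = wt W w T z := by
    intro T
    induction T with
    | zero =>
      intro w z
      refine ⟨memLp_const (w z), ?_⟩
      show ∫ _ω, w z ∂P = _
      rw [wt_zero]
      simp
    | succ T ih =>
      intro w z
      have hc : ∀ y, (fun ω => fwd W (cut T (cfg η ω)) T (dl y) z) =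
          fun ω => fwd W (cfg η ω) T (dl y) z := by
        intro y
        funext ω
        rw [← fwd_cut W (cfg η ω) T T le_rfl]
      have h1 : ∀ y, MemLp (fun ω => (1 + η (T + 1) y ω) *
          fwd W (cut T (cfg η ω)) T (dl y) z) 4 P ∧
          ∫ ω, (1 + η (T + 1) y ω) * fwd W (cut T (cfg η ω)) T (dl y) z ∂P =
            wt W (dl y) T z := by
        intro y
        have h2 := hprod T y (fun x => fwd W x T (dl y) z)
          (fwd_meas W T (fun _ => dl y) (fun _ => measurable_const) z) (by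
          show MemLp (fun ω => fwd W (cut T (cfg η ω)) T (dl y) z) 4 P
          rw [hc y]; exact (ih _ z).1)
        refine ⟨h2.1, h2.2.trans ?_⟩
        show ∫ ω, fwd W (cut T (cfg η ω)) T (dl y) z ∂P = _
        rw [hc y]
        exact (ih _ z).2
      have h6 : (fun ω => fwd W (cfg η ω) (T + 1) w z) =
          fun ω => ∑ y, wt W w 1 y * ((1 + η (T + 1) y ω) *
            fwd W (cut T (cfg η ω)) T (dl y) z) := by
        funext ω
        exact fwd_step W (cfg η ω) T w z
      rw [h6]
      refine ⟨memLp_finsetSum _ fun y _ => (h1 y).1.const_mul _, ?_⟩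
      rw [integral_finsetSum _ fun y _ => ((h1 y).1.const_mul _).integrable (by norm_num)]
      simp_rw [integral_const_mul, (h1 _).2]
      exact wt_succ W w T z
  exact ⟨hL, fun x j y hx => Zr_pos W hx j y, fun x j => Zr_cut W x j j le_rfl, Zr_meas W,
    fun T w z => fwd_meas W T (fun _ => w) (fun _ => measurable_const) z,
    fun x T w => fwd_cut W x T T le_rfl w, hcfg, fun j y => (hZ j y).1, fun j y => (hZ j y).2,
    fun w T z => (hFw T w z).1, fun w T z => (hFw T w z).2⟩

end Pool.Agent.H199.QC
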